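import Pool.Agent.H4.LU2.BaseDefs
import Pool.Agent.H4.LU.Main
import Pool.Agent.H46.LR.Ph
import Pool.Agent.H62.LR.End

/-!
# LU2 Main: the conclusions
-/

set_option autoImplicit false

open Topology Filter MvPolynomial Metric

noncomputable section

namespace Pool.Agent.H4.LU2

open Pool.Agent.H17 (PN VanishesAt)
open Pool.Agent.H62.SA (locVar)
open Pool.Agent.H14.KB (KobayashiHyperbolicModulo)
open Pool.Agent.H7.Bir (GGLOpen)
open Pool.Agent.H19Q (QSurface IsModification LogClass)
open Pool.Agent.H4.LU (IsBaseU)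
open Pool.Agent.H46.LR (IsBaseR)
open Pool.Agent.H62.LR (mainN mainI)

/-- the basic surfaces -/
theorem base_main2 (U : QSurface) (hU : IsBaseU U ∨ IsBaseR U) (hgt : U.LogGeneralType) :
    ∃ Ξ : Set (PN U.N), GGLOpen U.P U.G Ξ ∧ ∃ (Q : MvPolynomial (Fin (U.N + 1)) ℂ) (D : ℕ), Q.IsHomogeneous D ∧
      (∃ x ∈ locVar U.P U.G, ¬ VanishesAt Q x) ∧ (∀ x, x ∈ Ξ ↔ x ∈ locVar U.P U.G ∧ VanishesAt Q x) ∧
        KobayashiHyperbolicModulo (locVar U.P U.G) Q D := by
  rcases hU with hU | hU
  · exact Pool.Agent.H4.LU.base_main U hU hgt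
  · exact Pool.Agent.H46.LR.base_mainR mainN mainI hU hgt

theorem OverUnits.logClass {U : QSurface} (h : OverUnits U) : LogClass (fun U => IsBaseU U ∨ IsBaseR U) U := by
  induction h with
  | base U hU => exact .base U (Or.inl hU)
  | rational U hU => exact .base U (Or.inr hU)
  | modification U U' p hp _ ih => exact .modification U U' p hp ih
  | unramified U U' hs hs' p hp _ ih => exact .unramified U U' hs hs' p hp ih
  | dominant U U' p hp hgt _ ih => exact .dominant U U' p hp hgt ih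

/-- **The main theorem.** -/
theorem OverUnits.main {U : QSurface} (h : OverUnits U) (hgt : U.LogGeneralType) :
    ∃ Ξ : Set (PN U.N), GGLOpen U.P U.G Ξ :=
  h.logClass.main (fun U hU hgt => by
    obtain ⟨Ξ, hΞ, -⟩ := base_main2 U hU hgt
    exact ⟨Ξ, hΞ⟩) hgt

end Pool.Agent.H4.LU2
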